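import Pool.Agent.H64.Func.Limit

/-!
Invariant additive functionals (integrals) normalising a bounded function.
-/

set_option autoImplicit false

open Filter
open scoped Topology Classical ENNReal NNReal

namespace H64.Func

variable {G : Type*} [Group G]

/-- There is an additive left-invariant `I` on all `[0, ∞]`-valued functions with `I f = 1`. -/
def HasIntegral (f : G → ℝ≥0∞) : Prop :=
  ∃ I : (G → ℝ≥0∞) → ℝ≥0∞, (∀ φ ψ, I (φ + ψ) = I φ + I ψ) ∧
    (∀ (g : G) (φ : G → ℝ≥0∞), I (fun x => φ (g * x)) = I φ) ∧ I f = 1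

section Add

variable {I : (G → ℝ≥0∞) → ℝ≥0∞} (hadd : ∀ φ ψ, I (φ + ψ) = I φ + I ψ)

include hadd

theorem I_mono {φ ψ : G → ℝ≥0∞} (h : φ ≤ ψ) : I φ ≤ I ψ := by
  have : ψ = φ + (ψ - φ) := by
    ext x
    simp only [Pi.add_apply, Pi.sub_apply]
    exact (add_tsub_cancel_of_le (h x)).symm
  rw [this, hadd]
  exact le_self_add

theorem I_zero {f : G → ℝ≥0∞} (hf : I f = 1) : I 0 = 0 := by
  have h := hadd f 0
  rw [add_zero, hf] at h
  have : (1 : ℝ≥0∞) + 0 = 1 + I 0 := by rw [add_zero]; exact h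
  exact ((ENNReal.add_right_inj ENNReal.one_ne_top).1 this).symm

theorem I_nsmul (h0 : I 0 = 0) (n : ℕ) (φ : G → ℝ≥0∞) : I (n • φ) = n * I φ := by
  induction n with
  | zero => simp [h0]
  | succ n ih => rw [succ_nsmul, hadd, ih]; push_cast; ring

theorem I_sum (h0 : I 0 = 0) {ι : Type*} (s : Finset ι) (φ : ι → G → ℝ≥0∞) :
    I (∑ i ∈ s, φ i) = ∑ i ∈ s, I (φ i) := by
  induction s using Finset.induction_on with
  | empty => simpa using h0
  | insert a s ha ih => rw [Finset.sum_insert ha, Finset.sum_insert ha, hadd, ih]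

end Add

/-- The function produced by the geodesic tree has no invariant integral. -/
theorem no_integral (S : Finset G) {lam : ℝ} {p q : ℕ} (hq : 0 < q)
    (hlam : (p : ℝ) / q ≤ lam) (h1 : 1 < (p : ℝ) / q) (f : G → ℝ) (hf0 : ∀ x, 0 ≤ f x)
    (hsupp : ∀ x, f x = 0 ∨ ∃ n, x ∈ sph S n)
    (hrec : ∀ n, ∀ x ∈ sph S n,
        lam * f x = ∑ s ∈ letters S, if isChild S n s x then f (s * x) else 0) :
    ¬ HasIntegral (fun x => ENNReal.ofReal (f x)) := by
  rintro ⟨I, hadd, hinv, hI⟩
  have h0 := I_zero hadd hI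
  let chi : G → G → ℝ≥0∞ := fun s y =>
    if (∃ n, y ∈ sph S (n + 1)) ∧ fst S y = s then ENNReal.ofReal (f y) else 0
  have key : (p • fun x => ENNReal.ofReal (f x)) ≤
      q • ∑ s ∈ letters S, fun x => chi s (s * x) := by
    intro x
    simp only [Pi.smul_apply, Finset.sum_apply, nsmul_eq_mul]
    by_cases hx : ∃ n, x ∈ sph S n
    · obtain ⟨n, hn⟩ := hx
      have e := hrec n x hn
      have hq' : (0 : ℝ) < q := by exact_mod_cast hq
      have e2 : (p : ℝ) * f x ≤
          q * ∑ s ∈ letters S, if isChild S n s x then f (s * x) else 0 := by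
        rw [← e, ← mul_assoc]
        apply mul_le_mul_of_nonneg_right _ (hf0 x)
        rw [div_le_iff₀ hq'] at hlam
        linarith
      have hterm : ∀ s ∈ letters S, chi s (s * x) =
          ENNReal.ofReal (if isChild S n s x then f (s * x) else 0) := by
        intro s _
        simp only [chi]
        by_cases hc : isChild S n s x
        · rw [if_pos hc, if_pos ⟨⟨n, hc.1⟩, hc.2⟩]
        · rw [if_neg hc, ENNReal.ofReal_zero, if_neg]
          rintro ⟨⟨m, hm⟩, h2⟩
          have h3 := (fst_spec hm).2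
          unfold par at h3
          rw [h2, inv_mul_cancel_left] at h3
          have : m = n := sph_unique h3 hn
          subst this
          exact hc ⟨hm, h2⟩
      rw [Finset.sum_congr rfl hterm, ← ENNReal.ofReal_sum_of_nonneg]
      · have a1 : (p : ℝ≥0∞) = ENNReal.ofReal (p : ℝ) := by simp
        have a2 : (q : ℝ≥0∞) = ENNReal.ofReal (q : ℝ) := by simp
        rw [a1, a2, ← ENNReal.ofReal_mul (by positivity), ← ENNReal.ofReal_mul (by positivity)]
        exact ENNReal.ofReal_le_ofReal e2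
      · intro s _
        split_ifs
        · exact hf0 _
        · exact le_rfl
    · have hfx : f x = 0 := (hsupp x).resolve_right hx
      rw [hfx, ENNReal.ofReal_zero, mul_zero]
      exact zero_le
  have hle : ∑ s ∈ letters S, chi s ≤ fun x => ENNReal.ofReal (f x) := by
    intro y
    simp only [Finset.sum_apply, chi]
    by_cases hy : (∃ n, y ∈ sph S (n + 1)) ∧ fst S y ∈ letters S
    · rw [Finset.sum_eq_single (fst S y)]
      · split_ifs
        · exact le_rfl
        · exact zero_le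
      · intro s _ hs
        rw [if_neg]
        rintro ⟨-, h⟩
        exact hs h.symm
      · intro h
        exact absurd hy.2 h
    · rw [Finset.sum_eq_zero]
      · exact zero_le
      · intro s hs
        rw [if_neg]
        rintro ⟨h1, rfl⟩
        exact hy ⟨h1, hs⟩
  have h2 : (p : ℝ≥0∞) * 1 ≤ q * 1 := by
    calc (p : ℝ≥0∞) * 1 = I (p • fun x => ENNReal.ofReal (f x)) := by
          rw [I_nsmul hadd h0, hI]
      _ ≤ I (q • ∑ s ∈ letters S, fun x => chi s (s * x)) := I_mono hadd key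
      _ = q * ∑ s ∈ letters S, I (fun x => chi s (s * x)) := by
          rw [I_nsmul hadd h0, I_sum hadd h0]
      _ = q * ∑ s ∈ letters S, I (chi s) := by
          congr 1
          exact Finset.sum_congr rfl (fun s _ => hinv s (chi s))
      _ = q * I (∑ s ∈ letters S, chi s) := by rw [I_sum hadd h0]
      _ ≤ q * 1 := by
          gcongr
          exact (I_mono hadd hle).trans_eq hI
  rw [mul_one, mul_one] at h2
  have h3 : p ≤ q := by exact_mod_cast h2
  rw [one_lt_div (by exact_mod_cast hq)] at h1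
  have h4 : q < p := by exact_mod_cast h1
  omega

theorem thr_lower (S : Finset G) {eps : ℝ} (heps : 0 < eps) :
    ∃ c : ℝ, 0 < c ∧ ∀ n : ℕ, c * Real.exp (-(eps * n)) ≤ thr S n := by
  obtain ⟨C, hC, hg⟩ := gam_le S (show (0 : ℝ) < eps / 2 by positivity)
  set t : ℝ := eps / 4 with ht
  have ht0 : 0 < t := by positivity
  have hpoly : ∀ n : ℕ, ((n : ℝ) + 1) * (n + 2) ≤ Real.exp (4 * t) / t ^ 2 * Real.exp (2 * t * n) := by
    intro n
    have h1 : (n : ℝ) + 2 ≤ Real.exp (t * (n + 2)) / t := by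
      rw [le_div_iff₀ ht0]
      have := Real.add_one_le_exp (t * ((n : ℝ) + 2))
      linarith
    have h2 : ((n : ℝ) + 1) * (n + 2) ≤ (Real.exp (t * (n + 2)) / t) ^ 2 := by
      rw [sq]
      exact mul_le_mul (by linarith) h1 (by positivity) (by positivity)
    refine h2.trans_eq ?_
    have e3 : Real.exp (t * (n + 2)) ^ 2 = Real.exp (4 * t) * Real.exp (2 * t * n) := by
      rw [← Real.exp_add, sq, ← Real.exp_add]
      congr 1
      ring
    rw [div_pow, e3]
    ring
  refine ⟨(C * (Real.exp (4 * t) / t ^ 2))⁻¹, by positivity, ?_⟩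
  intro n
  have h2 : (0 : ℝ) < gam S n := by exact_mod_cast gam_pos S n
  unfold thr
  rw [le_div_iff₀ (by positivity)]
  calc (C * (Real.exp (4 * t) / t ^ 2))⁻¹ * Real.exp (-(eps * n)) *
        (gam S n * ((n + 1) * (n + 2)))
      ≤ (C * (Real.exp (4 * t) / t ^ 2))⁻¹ * Real.exp (-(eps * n)) *
        ((C * Real.exp ((rate S + eps / 2) * n)) *
          (Real.exp (4 * t) / t ^ 2 * Real.exp (2 * t * n))) := by
        apply mul_le_mul_of_nonneg_left _ (by positivity)
        exact mul_le_mul (hg n) (hpoly n) (by positivity) (by positivity)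
    _ = ((C * (Real.exp (4 * t) / t ^ 2))⁻¹ * (C * (Real.exp (4 * t) / t ^ 2))) *
        (Real.exp (-(eps * n)) * (Real.exp ((rate S + eps / 2) * n) * Real.exp (2 * t * n))) := by
        ring
    _ = Real.exp (rate S) ^ n := by
        rw [inv_mul_cancel₀ (by positivity), one_mul, ← Real.exp_add, ← Real.exp_add,
          ← Real.exp_nat_mul]
        congr 1
        rw [ht]
        ring

/-- If `S` has exponential growth then there is a function `f ≤ 1` whose nonzero values decay
subexponentially and which has no invariant integral. -/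
theorem exists_bad (S : Finset G) (hS : 0 < rate S) :
    ∃ f : G → ℝ, (∀ x, 0 ≤ f x ∧ f x ≤ 1) ∧ 0 < f 1 ∧
      (∀ x, f x ≠ 0 → ∃ n, x ∈ ball S n) ∧
      (∀ eps : ℝ, 0 < eps → ∃ c : ℝ, 0 < c ∧ ∀ n, ∀ x ∈ ball S n, f x ≠ 0 →
        c * Real.exp (-(eps * n)) ≤ f x) ∧
      ¬ HasIntegral (fun x => ENNReal.ofReal (f x)) := by
  obtain ⟨a, c, f, ha, hc, hf, hf1, hlow, hrec⟩ := exists_limit S hS
  have h1 : 1 < Real.exp (rate S) := Real.one_lt_exp_iff.2 hS
  obtain ⟨r, hr1, hr2⟩ := exists_rat_btwn h1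
  have hrpos : (0 : ℚ) < r := by
    have : (0 : ℝ) < r := by linarith
    exact_mod_cast this
  have hnum : 0 < r.num := Rat.num_pos.2 hrpos
  have e1 : ((r.num.toNat : ℕ) : ℝ) = (r.num : ℝ) := by
    have : ((r.num.toNat : ℕ) : ℤ) = r.num := Int.toNat_of_nonneg hnum.le
    exact_mod_cast this
  have e2 : ((r.num.toNat : ℕ) : ℝ) / (r.den : ℝ) = r := by
    rw [e1]
    exact (Rat.cast_def r).symm
  refine ⟨f, hf, by linarith, ?_, ?_, ?_⟩
  · intro x hx
    rcases hlow x with h | ⟨n, hn, -⟩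
    · exact absurd h hx
    · exact ⟨n, hn.1⟩
  · intro eps heps
    obtain ⟨b, hb, hthr⟩ := thr_lower S heps
    refine ⟨c * b, by positivity, ?_⟩
    intro n x hxn hx
    rcases hlow x with h | ⟨m, hm, h⟩
    · exact absurd h hx
    · have hmn : m ≤ n := (mem_ball_iff_of_sph hm).1 hxn
      calc c * b * Real.exp (-(eps * n)) ≤ c * b * Real.exp (-(eps * m)) := by
            apply mul_le_mul_of_nonneg_left _ (by positivity)
            apply Real.exp_le_exp.2
            have : (m : ℝ) ≤ n := by exact_mod_cast hmn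
            nlinarith
        _ = c * (b * Real.exp (-(eps * m))) := by ring
        _ ≤ c * thr S m := mul_le_mul_of_nonneg_left (hthr m) hc.le
        _ ≤ f x := h
  · apply no_integral S (p := r.num.toNat) (q := r.den) r.den_pos
      (lam := Real.exp (rate S)) (by rw [e2]; exact hr2.le) (by rw [e2]; exact hr1) f
      (fun x => (hf x).1) _ hrec
    intro x
    rcases hlow x with h | ⟨n, hn, -⟩
    · exact Or.inl h
    · exact Or.inr ⟨n, hn⟩

/-! ### Exponentially bounded groups have integrals -/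

/-- The ball as a finset. -/
noncomputable def ballF (S : Finset G) (n : ℕ) : Finset G := (ball_finite S n).toFinset

theorem mem_ballF {S : Finset G} {n : ℕ} {x : G} : x ∈ ballF S n ↔ x ∈ ball S n :=
  (ball_finite S n).mem_toFinset

theorem card_ballF (S : Finset G) (n : ℕ) : (ballF S n).card = gam S n :=
  (Set.ncard_eq_toFinset_card _ (ball_finite S n)).symm

theorem ballF_mono (S : Finset G) {m n : ℕ} (h : m ≤ n) : ballF S m ⊆ ballF S n := by
  intro x hx
  exact mem_ballF.2 (ball_mono S h (mem_ballF.1 hx))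

theorem exists_slow (S : Finset G) (hS : rate S = 0) (f : G → ℝ≥0) (C : ℝ≥0)
    (hC : ∀ x, f x ≤ C) (x0 : G) (hx0 : 0 < f x0) {δ : ℝ} (hδ : 0 < δ) :
    ∃ m : ℕ, ∑ g ∈ ballF S (m + 3), (f (g * x0) : ℝ) ≤
      (1 + δ) * ∑ g ∈ ballF S m, (f (g * x0) : ℝ) := by
  by_contra hcon
  push Not at hcon
  let a : ℕ → ℝ := fun n => ∑ g ∈ ballF S n, (f (g * x0) : ℝ)
  have ha0 : (f x0 : ℝ) ≤ a 0 := by
    have h1 : (1 : G) ∈ ballF S 0 := mem_ballF.2 (one_mem_ball S 0)
    have := Finset.single_le_sum (f := fun g => (f (g * x0) : ℝ)) (fun g _ => by positivity) h1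
    simpa using this
  have hpow : ∀ k : ℕ, (1 + δ) ^ k * f x0 ≤ a (3 * k) := by
    intro k
    induction k with
    | zero => simpa using ha0
    | succ k ih =>
      have h1 := hcon (3 * k)
      have e : 3 * (k + 1) = 3 * k + 3 := by ring
      rw [e]
      refine le_trans ?_ h1.le
      rw [pow_succ]
      calc (1 + δ) ^ k * (1 + δ) * f x0 = (1 + δ) * ((1 + δ) ^ k * f x0) := by ring
        _ ≤ _ := mul_le_mul_of_nonneg_left ih (by positivity)
  have hlog : 0 < Real.log (1 + δ) := Real.log_pos (by linarith)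
  obtain ⟨D, hD, hg⟩ := gam_le S (show 0 < Real.log (1 + δ) / 6 by positivity)
  have hup : ∀ k : ℕ, a (3 * k) ≤ C * D * Real.exp (Real.log (1 + δ) / 2 * k) := by
    intro k
    have h1 : a (3 * k) ≤ C * gam S (3 * k) := by
      calc a (3 * k) ≤ ∑ g ∈ ballF S (3 * k), (C : ℝ) :=
            Finset.sum_le_sum (fun g _ => by exact_mod_cast hC _)
        _ = _ := by rw [Finset.sum_const, card_ballF, nsmul_eq_mul, mul_comm]
    refine h1.trans ?_
    rw [mul_assoc]
    apply mul_le_mul_of_nonneg_left _ (by positivity)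
    refine (hg (3 * k)).trans_eq ?_
    congr 2
    rw [hS]
    push_cast
    ring
  set r : ℝ := Real.exp (Real.log (1 + δ) / 2) with hr
  have hr1 : 1 < r := Real.one_lt_exp_iff.2 (by positivity)
  have hr2 : r * r = 1 + δ := by
    rw [hr, ← Real.exp_add]
    have : Real.log (1 + δ) / 2 + Real.log (1 + δ) / 2 = Real.log (1 + δ) := by ring
    rw [this, Real.exp_log (by linarith)]
  have hfx : (0 : ℝ) < f x0 := by exact_mod_cast hx0
  obtain ⟨k, hk⟩ := pow_unbounded_of_one_lt (C * D / f x0) hr1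
  have h1 := hpow k
  have h2 := hup k
  have h3 : Real.exp (Real.log (1 + δ) / 2 * k) = r ^ k := by
    rw [hr, ← Real.exp_nat_mul]; congr 1; ring
  rw [h3] at h2
  rw [← hr2, mul_pow] at h1
  rw [div_lt_iff₀ hfx] at hk
  have h4 : 0 < r ^ k := by positivity
  nlinarith [mul_lt_mul_of_pos_left hk h4]

/-- `φ` is dominated by finitely many translates of `f`. -/
def Dom (f : G → ℝ≥0) (φ : G → ℝ≥0∞) : Prop :=
  ∃ (F : Finset G) (c : ℕ), ∀ x, φ x ≤ c * ∑ g ∈ F, (f (g * x) : ℝ≥0∞)

theorem Dom.mono {f : G → ℝ≥0} {φ ψ : G → ℝ≥0∞} (h : Dom f ψ) (hle : φ ≤ ψ) : Dom f φ := by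
  obtain ⟨F, c, h⟩ := h
  exact ⟨F, c, fun x => (hle x).trans (h x)⟩

theorem Dom.add {f : G → ℝ≥0} {φ ψ : G → ℝ≥0∞} (h : Dom f φ) (h' : Dom f ψ) :
    Dom f (φ + ψ) := by
  obtain ⟨F, c, h⟩ := h
  obtain ⟨F', c', h'⟩ := h'
  refine ⟨F ∪ F', c + c', fun x => ?_⟩
  rw [Pi.add_apply, Nat.cast_add, add_mul]
  apply add_le_add
  · refine (h x).trans ?_
    gcongr
    exact Finset.subset_union_left
  · refine (h' x).trans ?_
    gcongr
    exact Finset.subset_union_right

theorem Dom.translate {f : G → ℝ≥0} {φ : G → ℝ≥0∞} (h : Dom f φ) (t : G) :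
    Dom f (fun x => φ (t * x)) := by
  obtain ⟨F, c, h⟩ := h
  refine ⟨F.image (fun g => g * t), c, fun x => ?_⟩
  rw [Finset.sum_image (fun a _ b _ hab => mul_right_cancel hab)]
  refine (h (t * x)).trans (le_of_eq ?_)
  congr 1
  apply Finset.sum_congr rfl
  intro g _
  rw [mul_assoc]

theorem shift_le (S : Finset G) (m : ℕ) (f : G → ℝ≥0) (x0 : G) (φ : G → ℝ≥0∞) (F : Finset G)
    (c : ℕ) (hφ : ∀ x, φ x ≤ c * ∑ g ∈ F, (f (g * x) : ℝ≥0∞)) (hF : F ⊆ S) (t : G) (ht : t ∈ S) :
    ∑ g ∈ ballF S (m + 1), φ (t * (g * x0)) ≤ ∑ g ∈ ballF S (m + 1), φ (g * x0) +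
      c * (F.card * ∑ g ∈ ballF S (m + 3) \ ballF S m, (f (g * x0) : ℝ≥0∞)) := by
  have h1 : ∑ g ∈ ballF S (m + 1), φ (t * (g * x0)) =
      ∑ h ∈ (ballF S (m + 1)).image (fun g => t * g), φ (h * x0) := by
    rw [Finset.sum_image (fun a _ b _ hab => mul_left_cancel hab)]
    apply Finset.sum_congr rfl
    intro g _
    rw [mul_assoc]
  have h2 : (ballF S (m + 1)).image (fun g => t * g) ⊆ ballF S (m + 2) := by
    intro x hx
    obtain ⟨g, hg, rfl⟩ := Finset.mem_image.1 hx
    have := mul_mem_ball (letter_mem_ball (Or.inl ht)) (mem_ballF.1 hg)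
    rw [Nat.add_comm 1 (m + 1)] at this
    exact mem_ballF.2 this
  have h3 : ballF S (m + 1) ⊆ ballF S (m + 2) := ballF_mono S (by omega)
  rw [h1]
  calc ∑ h ∈ (ballF S (m + 1)).image (fun g => t * g), φ (h * x0)
      ≤ ∑ h ∈ ballF S (m + 2), φ (h * x0) := Finset.sum_le_sum_of_subset h2
    _ = ∑ g ∈ ballF S (m + 1), φ (g * x0) + ∑ h ∈ ballF S (m + 2) \ ballF S (m + 1), φ (h * x0) := by
        rw [← Finset.sum_sdiff h3]; exact add_comm _ _
    _ ≤ _ := by
        gcongr
        calc ∑ h ∈ ballF S (m + 2) \ ballF S (m + 1), φ (h * x0)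
            ≤ ∑ h ∈ ballF S (m + 2) \ ballF S (m + 1), c * ∑ g ∈ F, (f (g * (h * x0)) : ℝ≥0∞) :=
              Finset.sum_le_sum (fun h _ => hφ _)
          _ = c * ∑ g ∈ F, ∑ h ∈ ballF S (m + 2) \ ballF S (m + 1), (f (g * (h * x0)) : ℝ≥0∞) := by
              rw [← Finset.mul_sum, Finset.sum_comm]
          _ ≤ c * ∑ g ∈ F, ∑ h ∈ ballF S (m + 3) \ ballF S m, (f (h * x0) : ℝ≥0∞) := by
              gcongr with g hg
              have e : ∑ h ∈ ballF S (m + 2) \ ballF S (m + 1), (f (g * (h * x0)) : ℝ≥0∞) =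
                  ∑ h ∈ (ballF S (m + 2) \ ballF S (m + 1)).image (fun h => g * h),
                    (f (h * x0) : ℝ≥0∞) := by
                rw [Finset.sum_image (fun a _ b _ hab => mul_left_cancel hab)]
                apply Finset.sum_congr rfl
                intro h _
                rw [mul_assoc]
              rw [e]
              apply Finset.sum_le_sum_of_subset
              intro y hy
              obtain ⟨h, hh, rfl⟩ := Finset.mem_image.1 hy
              rw [Finset.mem_sdiff, mem_ballF, mem_ballF] at hh ⊢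
              constructor
              · have := mul_mem_ball (letter_mem_ball (Or.inl (hF hg))) hh.1
                rwa [Nat.add_comm 1 (m + 2)] at this
              · intro hmem
                apply hh.2
                have := mul_mem_ball (inv_mem_ball (letter_mem_ball (Or.inl (hF hg)))) hmem
                rwa [Nat.add_comm 1 m, inv_mul_cancel_left] at this
          _ = _ := by rw [Finset.sum_const, nsmul_eq_mul]

theorem hasIntegral_of_rate (hG : ∀ S : Finset G, rate S = 0) (f : G → ℝ≥0) (hf : f ≠ 0)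
    (C : ℝ≥0) (hC : ∀ x, f x ≤ C) : HasIntegral (fun x => (f x : ℝ≥0∞)) := by
  obtain ⟨x0, hx0⟩ : ∃ x0, f x0 ≠ 0 := by
    by_contra h
    push Not at h
    exact hf (funext h)
  have hx0' : 0 < f x0 := pos_iff_ne_zero.2 hx0
  choose m hm using fun i : Finset G × ℕ =>
    exists_slow i.1 (hG i.1) f C hC x0 hx0' (δ := 1 / ((i.2 : ℝ) + 1)) (by positivity)
  let A : Finset G × ℕ → ℝ≥0∞ := fun i => ∑ g ∈ ballF i.1 (m i + 1), (f (g * x0) : ℝ≥0∞)
  have hApos : ∀ i, A i ≠ 0 := by
    intro i h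
    simp only [A] at h
    rw [Finset.sum_eq_zero_iff] at h
    have := h 1 (mem_ballF.2 (one_mem_ball _ _))
    rw [one_mul] at this
    exact hx0 (by exact_mod_cast this)
  have hAtop : ∀ i, A i ≠ ⊤ := by
    intro i
    simp only [A]
    exact (ENNReal.sum_lt_top.2 (fun g _ => ENNReal.coe_lt_top)).ne
  let J : Finset G × ℕ → (G → ℝ≥0∞) → ℝ≥0∞ := fun i φ =>
    (∑ g ∈ ballF i.1 (m i + 1), φ (g * x0)) / A i
  let U : Ultrafilter (Finset G × ℕ) := Ultrafilter.of atTop
  have hU : (U : Filter (Finset G × ℕ)) ≤ atTop := Ultrafilter.of_le _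
  have hlim : ∀ φ, ∃ a : ℝ≥0∞, Tendsto (fun i => J i φ) U (𝓝 a) := by
    intro φ
    obtain ⟨a, -, ha⟩ := isCompact_univ.ultrafilter_le_nhds (U.map (fun i => J i φ)) (by simp)
    exact ⟨a, ha⟩
  choose I0 hI0 using hlim
  have hI0add : ∀ φ ψ, I0 (φ + ψ) = I0 φ + I0 ψ := by
    intro φ ψ
    have h1 := (hI0 φ).add (hI0 ψ)
    refine tendsto_nhds_unique (hI0 (φ + ψ)) (h1.congr (fun i => ?_))
    simp only [J, Pi.add_apply, Finset.sum_add_distrib]
    rw [ENNReal.add_div]
  have hI0f : I0 (fun x => (f x : ℝ≥0∞)) = 1 := by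
    refine tendsto_nhds_unique (hI0 _) (tendsto_const_nhds.congr (fun i => ?_))
    simp only [J]
    exact (ENNReal.div_self (hApos i) (hAtop i)).symm
  -- the error term
  have herr : ∀ i : Finset G × ℕ, (∑ g ∈ ballF i.1 (m i + 3) \ ballF i.1 (m i),
      (f (g * x0) : ℝ≥0∞)) / A i ≤ ENNReal.ofReal (1 / ((i.2 : ℝ) + 1)) := by
    intro i
    have h1 := hm i
    have hsub : ballF i.1 (m i) ⊆ ballF i.1 (m i + 3) := ballF_mono _ (by omega)
    have h2 : ∑ g ∈ ballF i.1 (m i + 3) \ ballF i.1 (m i), (f (g * x0) : ℝ) ≤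
        1 / ((i.2 : ℝ) + 1) * ∑ g ∈ ballF i.1 (m i + 1), (f (g * x0) : ℝ) := by
      have e := Finset.sum_sdiff (f := fun g => (f (g * x0) : ℝ)) hsub
      have h3 : ∑ g ∈ ballF i.1 (m i), (f (g * x0) : ℝ) ≤
          ∑ g ∈ ballF i.1 (m i + 1), (f (g * x0) : ℝ) :=
        Finset.sum_le_sum_of_subset_of_nonneg (ballF_mono _ (by omega)) (fun g _ _ => by positivity)
      have h4 : 1 / ((i.2 : ℝ) + 1) * ∑ g ∈ ballF i.1 (m i), (f (g * x0) : ℝ) ≤
          1 / ((i.2 : ℝ) + 1) * ∑ g ∈ ballF i.1 (m i + 1), (f (g * x0) : ℝ) :=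
        mul_le_mul_of_nonneg_left h3 (by positivity)
      linarith
    apply ENNReal.div_le_of_le_mul
    have e1 : ∀ B : Finset G, (∑ g ∈ B, (f (g * x0) : ℝ≥0∞)) =
        ENNReal.ofReal (∑ g ∈ B, (f (g * x0) : ℝ)) := by
      intro B
      rw [ENNReal.ofReal_sum_of_nonneg (fun g _ => by positivity)]
      apply Finset.sum_congr rfl
      intro g _
      rw [ENNReal.ofReal_coe_nnreal]
    simp only [A]
    rw [e1, e1, ← ENNReal.ofReal_mul (by positivity)]
    exact ENNReal.ofReal_le_ofReal h2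
  have hI0inv_le : ∀ (t : G) (φ : G → ℝ≥0∞), Dom f φ → I0 (fun x => φ (t * x)) ≤ I0 φ := by
    rintro t φ ⟨F, c, hφ⟩
    have hlim2 : Tendsto (fun i : Finset G × ℕ => J i φ +
        (c : ℝ≥0∞) * (F.card * ENNReal.ofReal (1 / ((i.2 : ℝ) + 1)))) U (𝓝 (I0 φ + c * (F.card * 0))) := by
      refine (hI0 φ).add ?_
      apply ENNReal.Tendsto.const_mul _ (Or.inr (ENNReal.natCast_ne_top c))
      apply ENNReal.Tendsto.const_mul _ (Or.inr (ENNReal.natCast_ne_top _))
      have h1 : Tendsto (fun n : ℕ => 1 / ((n : ℝ) + 1)) atTop (𝓝 0) :=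
        tendsto_one_div_add_atTop_nhds_zero_nat
      have h2 : Tendsto (fun i : Finset G × ℕ => i.2) U atTop :=
        (tendsto_snd.mono_left (le_refl _)).comp (tendsto_id.mono_left (hU.trans (by
          rw [← prod_atTop_atTop_eq])))
      have h3 := (h1.comp h2)
      have h4 := ENNReal.tendsto_ofReal h3
      rw [ENNReal.ofReal_zero] at h4
      exact h4
    rw [mul_zero, mul_zero, add_zero] at hlim2
    apply le_of_tendsto_of_tendsto (hI0 _) hlim2
    have hev : ∀ᶠ i : Finset G × ℕ in atTop, (insert t F, 0) ≤ i := eventually_ge_atTop _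
    refine (hev.filter_mono hU).mono (fun i hi => ?_)
    have hT : insert t F ⊆ i.1 := hi.1
    have h1 := shift_le i.1 (m i) f x0 φ F c hφ
      ((Finset.subset_insert t F).trans hT) t (hT (Finset.mem_insert_self t F))
    simp only [J]
    calc (∑ g ∈ ballF i.1 (m i + 1), φ (t * (g * x0))) / A i
        ≤ (∑ g ∈ ballF i.1 (m i + 1), φ (g * x0) + c * (F.card *
            ∑ g ∈ ballF i.1 (m i + 3) \ ballF i.1 (m i), (f (g * x0) : ℝ≥0∞))) / A i :=
          ENNReal.div_le_div_right h1 _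
      _ = (∑ g ∈ ballF i.1 (m i + 1), φ (g * x0)) / A i + c * (F.card *
            ((∑ g ∈ ballF i.1 (m i + 3) \ ballF i.1 (m i), (f (g * x0) : ℝ≥0∞)) / A i)) := by
          rw [ENNReal.add_div, mul_div_assoc, mul_div_assoc]
      _ ≤ _ := by
          gcongr
          exact herr i
  have hI0inv : ∀ (t : G) (φ : G → ℝ≥0∞), Dom f φ → I0 (fun x => φ (t * x)) = I0 φ := by
    intro t φ hφ
    apply le_antisymm (hI0inv_le t φ hφ)
    have := hI0inv_le t⁻¹ (fun x => φ (t * x)) (hφ.translate t)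
    simpa using this
  refine ⟨fun φ => if Dom f φ then I0 φ else ⊤, ?_, ?_, ?_⟩
  · intro φ ψ
    by_cases h : Dom f (φ + ψ)
    · have h1 : Dom f φ := h.mono (fun x => by simp)
      have h2 : Dom f ψ := h.mono (fun x => by simp)
      simp only [if_pos h, if_pos h1, if_pos h2]
      exact hI0add φ ψ
    · by_cases h1 : Dom f φ
      · have h2 : ¬ Dom f ψ := fun h2 => h (h1.add h2)
        simp only [if_neg h, if_neg h2, add_top]
      · simp only [if_neg h, if_neg h1, top_add]
  · intro g φ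
    by_cases h : Dom f φ
    · simp only [if_pos h, if_pos (h.translate g)]
      exact hI0inv g φ h
    · have h' : ¬ Dom f (fun x => φ (g * x)) := by
        intro h'
        apply h
        have := h'.translate g⁻¹
        simpa using this
      simp only [if_neg h, if_neg h']
  · have h : Dom f (fun x => (f x : ℝ≥0∞)) := ⟨{1}, 1, fun x => by simp⟩
    simp only [if_pos h]
    exact hI0f

end H64.Func
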