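import Pool.Agent.H64.Func.Stage

/-!
The limit function: if `S` has growth rate `λ > 1` then there is a bounded function `f` on the
group whose values at the children of `x` in the geodesic tree add up to `λ f x`, and whose nonzero
values decay subexponentially.
-/

set_option autoImplicit false

open Filter
open scoped Topology Classical

namespace H64.Func

variable {G : Type*} [Group G]

theorem exists_record_of_unbounded (S : Finset G) {lam : ℝ} (hlam0 : 0 < lam)
    (hunb : ∀ A : ℝ, ∃ n, A * lam ^ n < sig S n)
    (j : ℕ) : ∃ N, j ≤ N ∧ 0 < sig S N ∧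
      ∀ k ≤ N, (sig S k : ℝ) * lam ^ (N - k) ≤ sig S N := by
  let a : ℕ → ℝ := fun n => sig S n / lam ^ n
  -- the maximum up to j
  obtain ⟨M, -, hM⟩ := Finset.exists_max_image (Finset.range (j + 1)) a ⟨0, by simp⟩
  obtain ⟨n, hn⟩ := hunb (a M)
  obtain ⟨N, hN, hmax⟩ := Finset.exists_max_image (Finset.range (n + 1)) a ⟨0, by simp⟩
  have haN : a M < a N := by
    have : a n ≤ a N := hmax n (by simp)
    refine lt_of_lt_of_le ?_ this
    simp only [a] at hn ⊢
    rw [lt_div_iff₀ (by positivity)]
    exact hn
  have hjN : j ≤ N := by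
    by_contra hlt
    have := hM N (by simpa using (by omega : N < j + 1))
    linarith
  have haM : 0 ≤ a M := by simp only [a]; positivity
  refine ⟨N, hjN, ?_, ?_⟩
  · by_contra h0
    have : sig S N = 0 := by omega
    simp only [a, this] at haN
    simp only [a] at haM
    simp at haN
    linarith
  · intro k hk
    have hk' := hmax k (by
      rw [Finset.mem_range] at hN ⊢
      omega)
    simp only [a] at hk'
    rw [div_le_div_iff₀ (by positivity) (by positivity)] at hk'
    have e : lam ^ N = lam ^ (N - k) * lam ^ k := by rw [← pow_add]; congr 1; omega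
    rw [e, ← mul_assoc] at hk'
    exact le_of_mul_le_mul_right hk' (by positivity)

theorem gam_le_add (S : Finset G) (j d : ℕ) :
    gam S (j + d) ≤ gam S j + ∑ k ∈ Finset.range d, sig S (j + k + 1) := by
  induction d with
  | zero => simp
  | succ d ih =>
    rw [Finset.sum_range_succ]
    have h : ball S (j + (d + 1)) ⊆ ball S (j + d) ∪ sph S (j + d + 1) := by
      intro x hx
      obtain ⟨m, hm, h⟩ := exists_sph hx
      rcases Nat.lt_or_ge (j + d) m with h1 | h1
      · right
        have : m = j + d + 1 := by omega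
        rwa [this] at h
      · left
        exact ball_mono S h1 h.1
    have h2 : gam S (j + (d + 1)) ≤ gam S (j + d) + sig S (j + d + 1) :=
      (Set.ncard_le_ncard h ((ball_finite S _).union (sph_finite S _))).trans
        (Set.ncard_union_le _ _)
    omega

/-- Along infinitely many `N` the sphere of radius `N` is comparable to the largest value of
`sig S k * λ ^ (N - k)`. -/
theorem exists_record (S : Finset G) (hS : 0 < rate S) :
    ∃ B : ℝ, 0 < B ∧ ∀ j : ℕ, ∃ N, j ≤ N ∧ 0 < sig S N ∧
      ∀ k ≤ N, (sig S k : ℝ) * Real.exp (rate S) ^ (N - k) ≤ B * sig S N := by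
  set lam : ℝ := Real.exp (rate S) with hlam
  have hlam1 : 1 < lam := Real.one_lt_exp_iff.2 hS
  have hlam0 : 0 < lam := by linarith
  by_cases hunb : ∀ A : ℝ, ∃ n, A * lam ^ n < sig S n
  · refine ⟨1, one_pos, fun j => ?_⟩
    obtain ⟨N, h1, h2, h3⟩ := exists_record_of_unbounded S hlam0 hunb j
    exact ⟨N, h1, h2, fun k hk => by rw [one_mul]; exact h3 k hk⟩
  · push Not at hunb
    obtain ⟨A, hA⟩ := hunb
    have hA0 : 0 < A := by
      have h1 := hA 0
      simp only [pow_zero, mul_one] at h1
      have h2 : sig S 0 = 1 := by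
        unfold sig
        rw [sph_zero, Set.ncard_singleton]
      rw [h2] at h1
      push_cast at h1
      linarith
    have hd : 0 < lam - 1 := by linarith
    set δ : ℝ := (lam - 1) / (2 * lam) with hδ
    have hδ0 : 0 < δ := by positivity
    refine ⟨A / δ, by positivity, fun j => ?_⟩
    have key : ∃ N, j ≤ N ∧ δ * lam ^ N ≤ sig S N := by
      by_contra hcon
      push Not at hcon
      have hb : ∀ d : ℕ, lam ^ (j + d) ≤ 2 * gam S j := by
        intro d
        have e1 := exp_rate_le S (j + d)
        have e2 : Real.exp (rate S * ((j + d : ℕ) : ℝ)) = lam ^ (j + d) := by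
          rw [hlam, ← Real.exp_nat_mul]; congr 1; ring
        rw [e2] at e1
        have e3 : (gam S (j + d) : ℝ) ≤ gam S j + ∑ k ∈ Finset.range d, (sig S (j + k + 1) : ℝ) := by
          exact_mod_cast gam_le_add S j d
        have e4 : ∑ k ∈ Finset.range d, (sig S (j + k + 1) : ℝ) ≤
            ∑ k ∈ Finset.range d, δ * lam ^ (j + 1) * lam ^ k := by
          apply Finset.sum_le_sum
          intro k _
          refine (hcon (j + k + 1) (by omega)).le.trans_eq ?_
          rw [mul_assoc, ← pow_add]
          congr 2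
          omega
        have e5 : ∑ k ∈ Finset.range d, δ * lam ^ (j + 1) * lam ^ k =
            δ * lam ^ (j + 1) * ((lam ^ d - 1) / (lam - 1)) := by
          rw [← Finset.mul_sum, geom_sum_eq hlam1.ne']
        have e6 : δ * lam ^ (j + 1) * ((lam ^ d - 1) / (lam - 1)) ≤ lam ^ (j + d) / 2 := by
          have : δ * lam ^ (j + 1) * ((lam ^ d - 1) / (lam - 1)) =
              (lam ^ (j + d) - lam ^ j) / 2 := by
            rw [hδ, pow_succ, pow_add]
            field_simp
          rw [this]
          have : 0 < lam ^ j := by positivity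
          linarith
        linarith
      obtain ⟨d, hd'⟩ := pow_unbounded_of_one_lt (2 * (gam S j : ℝ)) hlam1
      have h1 := hb d
      have h2 : lam ^ d ≤ lam ^ (j + d) := pow_le_pow_right₀ hlam1.le (by omega)
      linarith
    obtain ⟨N, hjN, hN⟩ := key
    refine ⟨N, hjN, ?_, ?_⟩
    · have : (0 : ℝ) < sig S N := lt_of_lt_of_le (by positivity) hN
      exact_mod_cast this
    · intro k hk
      calc (sig S k : ℝ) * lam ^ (N - k) ≤ A * lam ^ k * lam ^ (N - k) :=
            mul_le_mul_of_nonneg_right (hA k) (by positivity)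
        _ = A * lam ^ N := by
            rw [mul_assoc, ← pow_add]
            congr 2
            omega
        _ = A / δ * (δ * lam ^ N) := by field_simp
        _ ≤ A / δ * sig S N := mul_le_mul_of_nonneg_left hN (by positivity)

/-- The threshold `λ ^ n / (gam n * (n + 1) * (n + 2))`. -/
noncomputable def thr (S : Finset G) (n : ℕ) : ℝ :=
  Real.exp (rate S) ^ n / (gam S n * ((n + 1) * (n + 2)))

theorem thr_pos (S : Finset G) (n : ℕ) : 0 < thr S n := by
  have h2 : (0 : ℝ) < gam S n := by exact_mod_cast gam_pos S n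
  unfold thr
  positivity

theorem sum_thr (S : Finset G) (N : ℕ) :
    ∑ k ∈ Finset.range (N + 1), (sig S k : ℝ) * (thr S k * (Real.exp (rate S))⁻¹ ^ k) ≤ 1 := by
  have h1 : ∀ k, (sig S k : ℝ) * (thr S k * (Real.exp (rate S))⁻¹ ^ k) ≤
      1 / ((k : ℝ) + 1) - 1 / ((k : ℝ) + 2) := by
    intro k
    have h2 : (0 : ℝ) < gam S k := by exact_mod_cast gam_pos S k
    have h3 : (sig S k : ℝ) ≤ gam S k := by exact_mod_cast sig_le_gam S k
    have h4 : Real.exp (rate S) ^ k * (Real.exp (rate S))⁻¹ ^ k = 1 := by
      rw [← mul_pow, mul_inv_cancel₀ (Real.exp_pos _).ne', one_pow]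
    have e : thr S k * (Real.exp (rate S))⁻¹ ^ k = 1 / (gam S k * ((k + 1) * (k + 2))) := by
      unfold thr
      rw [div_mul_eq_mul_div, h4]
    rw [e]
    calc (sig S k : ℝ) * (1 / (gam S k * ((k + 1) * (k + 2))))
        ≤ gam S k * (1 / (gam S k * ((k + 1) * (k + 2)))) :=
          mul_le_mul_of_nonneg_right h3 (by positivity)
      _ = _ := by field_simp; ring
  calc ∑ k ∈ Finset.range (N + 1), (sig S k : ℝ) * (thr S k * (Real.exp (rate S))⁻¹ ^ k)
      ≤ ∑ k ∈ Finset.range (N + 1), (1 / ((k : ℝ) + 1) - 1 / ((k : ℝ) + 2)) :=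
        Finset.sum_le_sum (fun k _ => h1 k)
    _ = 1 - 1 / ((N : ℝ) + 2) := by
        induction N with
        | zero => norm_num
        | succ N ih =>
          rw [Finset.sum_range_succ, ih]
          push_cast
          ring
    _ ≤ 1 := by
        have : (0 : ℝ) < 1 / ((N : ℝ) + 2) := by positivity
        linarith

theorem exists_limit (S : Finset G) (hS : 0 < rate S) :
    ∃ (a c : ℝ) (f : G → ℝ), 0 < a ∧ 0 < c ∧ (∀ x, 0 ≤ f x ∧ f x ≤ 1) ∧ a ≤ f 1 ∧
      (∀ x, f x = 0 ∨ ∃ n, x ∈ sph S n ∧ c * thr S n ≤ f x) ∧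
      (∀ n, ∀ x ∈ sph S n,
        Real.exp (rate S) * f x =
          ∑ s ∈ letters S, if isChild S n s x then f (s * x) else 0) := by
  have h1 : 1 < Real.exp (rate S) := Real.one_lt_exp_iff.2 hS
  obtain ⟨B, hB, hex⟩ := exists_record S hS
  choose N hjN hpos hrec using hex
  choose f hf01 hf1 hflow hfrec using fun j => stage S h1 hB (show (0 : ℝ) < 1 / 2 by norm_num)
    (thr S) (fun m => (thr_pos S m).le) (N j) (hpos j) (hrec j) (by
      have := sum_thr S (N j)
      linarith)
  let U : Ultrafilter ℕ := hyperfilter ℕ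
  have hU : (U : Filter ℕ) ≤ atTop := by
    rw [← Nat.cofinite_eq_atTop]
    exact hyperfilter_le_cofinite
  have hlim : ∀ x, ∃ a : ℝ, Tendsto (fun j => f j x) U (𝓝 a) := by
    intro x
    have hK : IsCompact (Set.Icc (0 : ℝ) 1) := isCompact_Icc
    obtain ⟨a, -, ha⟩ := hK.ultrafilter_le_nhds (U.map (fun j => f j x)) (by
      rw [le_principal_iff]
      exact Filter.mem_map.2 (Filter.univ_mem' (fun j => hf01 j x)))
    exact ⟨a, ha⟩
  choose F hF using hlim
  refine ⟨1 / (2 * B), 1 / 2 / B, F, by positivity, by positivity, ?_, ?_, ?_, ?_⟩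
  · intro x
    exact ⟨ge_of_tendsto' (hF x) (fun j => (hf01 j x).1),
      le_of_tendsto' (hF x) (fun j => (hf01 j x).2)⟩
  · exact ge_of_tendsto' (hF 1) (fun j => hf1 j)
  · intro x
    by_cases hx : ∃ n, x ∈ sph S n
    · obtain ⟨n, hn⟩ := hx
      have hclosed : IsClosed ({0} ∪ Set.Ici (1 / 2 / B * thr S n) : Set ℝ) :=
        isClosed_singleton.union isClosed_Ici
      have hmem := hclosed.mem_of_tendsto (hF x) (Eventually.of_forall (fun j => by
        rcases hflow j x with h | ⟨m, hm, h⟩
        · exact Or.inl h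
        · have : m = n := sph_unique hm hn
          subst this
          exact Or.inr h))
      rcases hmem with h | h
      · exact Or.inl h
      · exact Or.inr ⟨n, hn, h⟩
    · left
      have h0 : ∀ j, f j x = 0 := by
        intro j
        rcases hflow j x with h | ⟨m, hm, -⟩
        · exact h
        · exact absurd ⟨m, hm⟩ hx
      have := hF x
      simp only [h0] at this
      exact tendsto_nhds_unique this tendsto_const_nhds
  · intro n x hx
    have hL : Tendsto (fun j => Real.exp (rate S) * f j x) U (𝓝 (Real.exp (rate S) * F x)) :=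
      (hF x).const_mul _
    have hR : Tendsto (fun j => ∑ s ∈ letters S, if isChild S n s x then f j (s * x) else 0) U
        (𝓝 (∑ s ∈ letters S, if isChild S n s x then F (s * x) else 0)) := by
      apply tendsto_finsetSum
      intro s _
      by_cases hs : isChild S n s x
      · simp only [if_pos hs]
        exact hF (s * x)
      · simp only [if_neg hs]
        exact tendsto_const_nhds
    have hev : ∀ᶠ j in (U : Filter ℕ), Real.exp (rate S) * f j x =
        ∑ s ∈ letters S, if isChild S n s x then f j (s * x) else 0 := by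
      have : ∀ᶠ j in atTop, n < j := eventually_gt_atTop n
      exact (this.filter_mono hU).mono (fun j hj => hfrec j n (lt_of_lt_of_le hj (hjN j)) x hx)
    exact tendsto_nhds_unique (hL.congr' hev) hR

end H64.Func
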