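import Pool.Agent.H64.Func.Word

/-!
Finite stage: a normalised counting function on the geodesic tree, pruned by an extremal choice
of leaves so that it never drops below a prescribed threshold.
-/

set_option autoImplicit false

open Filter
open scoped Topology Classical

namespace H64.Func

variable {G : Type*} [Group G]

/-- The sphere as a finset. -/
noncomputable def sphF (S : Finset G) (n : ℕ) : Finset G := (sph_finite S n).toFinset

theorem mem_sphF {S : Finset G} {n : ℕ} {x : G} : x ∈ sphF S n ↔ x ∈ sph S n :=
  (sph_finite S n).mem_toFinset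

theorem card_sphF (S : Finset G) (n : ℕ) : (sphF S n).card = sig S n :=
  (Set.ncard_eq_toFinset_card _ (sph_finite S n)).symm

/-- The elements of `L` below `x` (`x` on the sphere `m`, `L` on the sphere `N`). -/
noncomputable def below (S : Finset G) (N m : ℕ) (L : Finset G) (x : G) : Finset G :=
  L.filter (fun y => (par S)^[N - m] y = x)

/-- The penalty of a set of leaves. -/
noncomputable def pen (S : Finset G) (N : ℕ) (w : ℕ → ℝ) (L : Finset G) : ℝ :=
  ∑ m ∈ Finset.range (N + 1), ∑ x ∈ sphF S m, if (below S N m L x).Nonempty then w m else 0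

theorem exists_good_leaves (S : Finset G) (N : ℕ) (w : ℕ → ℝ) (hw : ∀ m, 0 ≤ w m)
    (hsum : 2 * ∑ m ∈ Finset.range (N + 1), (sig S m : ℝ) * w m ≤ sig S N) :
    ∃ L ⊆ sphF S N, (sig S N : ℝ) ≤ 2 * L.card ∧
      ∀ m ≤ N, ∀ x ∈ sphF S m, (below S N m L x).card = 0 ∨
        w m ≤ (below S N m L x).card := by
  obtain ⟨L, hL, hmax⟩ := Finset.exists_max_image (sphF S N).powerset
    (fun L => (L.card : ℝ) - pen S N w L) ⟨∅, by simp⟩
  rw [Finset.mem_powerset] at hL
  refine ⟨L, hL, ?_, ?_⟩
  · have h1 := hmax (sphF S N) (by simp)
    have h2 : pen S N w (sphF S N) ≤ ∑ m ∈ Finset.range (N + 1), (sig S m : ℝ) * w m := by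
      unfold pen
      apply Finset.sum_le_sum
      intro m _
      calc ∑ x ∈ sphF S m, (if (below S N m (sphF S N) x).Nonempty then w m else 0)
          ≤ ∑ x ∈ sphF S m, w m := by
            apply Finset.sum_le_sum
            intro x _
            split_ifs
            · exact le_rfl
            · exact hw m
        _ = _ := by rw [Finset.sum_const, card_sphF, nsmul_eq_mul]
    have h3 : 0 ≤ pen S N w L := by
      unfold pen
      apply Finset.sum_nonneg
      intro m _
      apply Finset.sum_nonneg
      intro x _
      split_ifs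
      · exact hw m
      · exact le_rfl
    rw [card_sphF] at h1
    linarith
  · intro m hm x hx
    by_cases hne : (below S N m L x).Nonempty
    · right
      have hsub : below S N m L x ⊆ L := Finset.filter_subset _ _
      have h1 := hmax (L \ below S N m L x) (by
        rw [Finset.mem_powerset]; exact Finset.sdiff_subset.trans hL)
      rw [Finset.card_sdiff_of_subset hsub, Nat.cast_sub (Finset.card_le_card hsub)] at h1
      have h2 : pen S N w (L \ below S N m L x) + w m ≤ pen S N w L := by
        have hmono : ∀ m' x', (if (below S N m' (L \ below S N m L x) x').Nonempty then w m' else 0)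
            ≤ (if (below S N m' L x').Nonempty then w m' else 0) := by
          intro m' x'
          by_cases h : (below S N m' (L \ below S N m L x) x').Nonempty
          · have h' : (below S N m' L x').Nonempty :=
              h.mono (Finset.filter_subset_filter _ Finset.sdiff_subset)
            rw [if_pos h, if_pos h']
          · rw [if_neg h]
            split_ifs
            · exact hw m'
            · exact le_rfl
        have hzero : ¬ (below S N m (L \ below S N m L x) x).Nonempty := by
          rintro ⟨y, hy⟩
          unfold below at hy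
          rw [Finset.mem_filter, Finset.mem_sdiff, Finset.mem_filter] at hy
          exact hy.1.2 ⟨hy.1.1, hy.2⟩
        unfold pen
        rw [← Finset.add_sum_erase _ _ (Finset.mem_range.2 (by omega : m < N + 1)),
          ← Finset.add_sum_erase (Finset.range (N + 1)) _ (Finset.mem_range.2 (by omega : m < N + 1)),
          ← Finset.add_sum_erase (sphF S m) _ hx, ← Finset.add_sum_erase (sphF S m) _ hx,
          if_neg hzero, if_pos hne]
        have e1 : ∑ x' ∈ (sphF S m).erase x,
            (if (below S N m (L \ below S N m L x) x').Nonempty then w m else 0) ≤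
            ∑ x' ∈ (sphF S m).erase x, (if (below S N m L x').Nonempty then w m else 0) :=
          Finset.sum_le_sum (fun x' _ => hmono m x')
        have e2 : ∑ m' ∈ (Finset.range (N + 1)).erase m, ∑ x' ∈ sphF S m',
            (if (below S N m' (L \ below S N m L x) x').Nonempty then w m' else 0) ≤
            ∑ m' ∈ (Finset.range (N + 1)).erase m, ∑ x' ∈ sphF S m',
            (if (below S N m' L x').Nonempty then w m' else 0) :=
          Finset.sum_le_sum (fun m' _ => Finset.sum_le_sum (fun x' _ => hmono m' x'))
        linarith
      linarith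
    · left
      rw [Finset.not_nonempty_iff_eq_empty] at hne
      rw [hne]; rfl

/-- The indicator that `s` is the chosen first letter of the child `s * x`. -/
def isChild (S : Finset G) (n : ℕ) (s x : G) : Prop := s * x ∈ sph S (n + 1) ∧ fst S (s * x) = s

theorem below_split (S : Finset G) {N m : ℕ} (hm : m < N) (L : Finset G) (hL : L ⊆ sphF S N)
    (x : G) :
    (below S N m L x).card =
      ∑ s ∈ letters S, if isChild S m s x then (below S N (m + 1) L (s * x)).card else 0 := by
  rw [← Finset.sum_filter]
  rw [← Finset.card_biUnion]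
  · congr 1
    ext y
    simp only [Finset.mem_biUnion, Finset.mem_filter, below]
    constructor
    · rintro ⟨hy, hyx⟩
      have hyS : y ∈ sph S ((m + 1) + (N - (m + 1))) := by
        have : m + 1 + (N - (m + 1)) = N := by omega
        rw [this]; exact mem_sphF.1 (hL hy)
      have h1 := (par_iter (N - (m + 1)) hyS).1
      have h2 : N - m = (N - (m + 1)) + 1 := by omega
      rw [h2, Function.iterate_succ_apply'] at hyx
      have h3 := fst_spec h1
      have h4 : fst S ((par S)^[N - (m + 1)] y) * x = (par S)^[N - (m + 1)] y := by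
        rw [← hyx]
        unfold par
        group
      refine ⟨fst S ((par S)^[N - (m + 1)] y), ⟨h3.1, ?_⟩, hy, h4.symm⟩
      unfold isChild
      rw [h4]
      exact ⟨h1, rfl⟩
    · rintro ⟨s, ⟨hs, hc⟩, hy, hyx⟩
      refine ⟨hy, ?_⟩
      have h2 : N - m = (N - (m + 1)) + 1 := by omega
      rw [h2, Function.iterate_succ_apply', hyx]
      unfold par
      rw [hc.2]
      group
  · intro s hs t ht hst
    simp only [Function.onFun, Finset.disjoint_left, below, Finset.mem_filter]
    rintro y ⟨-, h1⟩ ⟨-, h2⟩
    rw [h1] at h2
    exact hst (mul_right_cancel h2)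

/-- The finite stage function. -/
theorem stage (S : Finset G) {lam B c : ℝ} (hlam : 1 < lam) (hB : 0 < B) (hc : 0 < c)
    (th : ℕ → ℝ) (hth : ∀ m, 0 ≤ th m)
    (N : ℕ) (hpos : 0 < sig S N)
    (hrec : ∀ k ≤ N, (sig S k : ℝ) * lam ^ (N - k) ≤ B * sig S N)
    (hsum : 2 * c * ∑ k ∈ Finset.range (N + 1), (sig S k : ℝ) * (th k * lam⁻¹ ^ k) ≤ 1) :
    ∃ f : G → ℝ, (∀ x, 0 ≤ f x ∧ f x ≤ 1) ∧ 1 / (2 * B) ≤ f 1 ∧
      (∀ x, f x = 0 ∨ ∃ n, x ∈ sph S n ∧ c / B * th n ≤ f x) ∧
      (∀ n < N, ∀ x ∈ sph S n,
        lam * f x = ∑ s ∈ letters S, if isChild S n s x then f (s * x) else 0) := by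
  have hlam0 : 0 < lam := by linarith
  have hsig : (0 : ℝ) < sig S N := by exact_mod_cast hpos
  obtain ⟨L, hL, hLcard, hLw⟩ := exists_good_leaves S N
    (fun m => c * sig S N * (th m * lam⁻¹ ^ m)) (fun m => by
      have := hth m
      positivity) (by
      have : ∑ m ∈ Finset.range (N + 1), (sig S m : ℝ) * (c * sig S N * (th m * lam⁻¹ ^ m))
          = sig S N * (c * ∑ k ∈ Finset.range (N + 1),
            (sig S k : ℝ) * (th k * lam⁻¹ ^ k)) := by
        rw [Finset.mul_sum, Finset.mul_sum]
        apply Finset.sum_congr rfl
        intro m _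
        ring
      rw [this]
      nlinarith)
  have hBs : 0 < B * (sig S N : ℝ) := by positivity
  -- the function
  let F : ℕ → G → ℝ := fun m x => lam ^ m * (below S N m L x).card / (B * sig S N)
  let f : G → ℝ := fun x => if h : ∃ m ≤ N, x ∈ sph S m then F h.choose x else 0
  have hf : ∀ m ≤ N, ∀ x ∈ sph S m, f x = F m x := by
    intro m hm x hx
    have h : ∃ m ≤ N, x ∈ sph S m := ⟨m, hm, hx⟩
    have e : h.choose = m := sph_unique h.choose_spec.2 hx
    simp only [f, dif_pos h, e]
  have hf0 : ∀ x, (¬ ∃ m ≤ N, x ∈ sph S m) → f x = 0 := by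
    intro x h
    simp only [f, dif_neg h]
  refine ⟨f, ?_, ?_, ?_, ?_⟩
  · intro x
    by_cases h : ∃ m ≤ N, x ∈ sph S m
    · obtain ⟨m, hm, hx⟩ := h
      rw [hf m hm x hx]
      refine ⟨by positivity, ?_⟩
      simp only [F]
      rw [div_le_one hBs]
      have h1 : (below S N m L x).card ≤ sig S (N - m) := by
        apply desc_card_le (m := m) (k := N - m) (x := x) _ _ hx
        · intro y hy
          exact (Finset.mem_filter.1 hy).2
        · intro y hy
          have : m + (N - m) = N := by omega
          rw [this]
          exact mem_sphF.1 (hL (Finset.mem_filter.1 hy).1)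
      have h2 := hrec (N - m) (by omega)
      have h3 : N - (N - m) = m := by omega
      rw [h3] at h2
      calc lam ^ m * ((below S N m L x).card : ℝ) ≤ lam ^ m * sig S (N - m) := by
            apply mul_le_mul_of_nonneg_left _ (by positivity)
            exact_mod_cast h1
        _ = sig S (N - m) * lam ^ m := mul_comm _ _
        _ ≤ _ := h2
    · rw [hf0 x h]
      exact ⟨le_rfl, zero_le_one⟩
  · have h1 : (1 : G) ∈ sph S 0 := by rw [sph_zero]; rfl
    rw [hf 0 (by omega) 1 h1]
    simp only [F, pow_zero, one_mul]
    have h2 : below S N 0 L 1 = L := by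
      unfold below
      rw [Finset.filter_true_of_mem]
      intro y hy
      have hy' : y ∈ sph S (0 + N) := by rw [Nat.zero_add]; exact mem_sphF.1 (hL hy)
      have h3 := (par_iter N hy').1
      rw [sph_zero] at h3
      simpa using h3
    rw [h2, div_le_div_iff₀ (by positivity) hBs]
    nlinarith
  · intro x
    by_cases h : ∃ m ≤ N, x ∈ sph S m
    · obtain ⟨m, hm, hx⟩ := h
      rw [hf m hm x hx]
      rcases hLw m hm x (mem_sphF.2 hx) with h1 | h1
      · left
        simp only [F, h1]
        simp
      · right
        refine ⟨m, hx, ?_⟩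
        simp only [F]
        rw [le_div_iff₀ hBs]
        have hBne : B ≠ 0 := hB.ne'
        calc c / B * th m * (B * sig S N)
            = (B / B) * (c * th m * sig S N) := by ring
          _ = c * th m * sig S N := by rw [div_self hBne, one_mul]
          _ = lam ^ m * (c * sig S N * (th m * lam⁻¹ ^ m)) := by
              have : lam ^ m * (lam⁻¹ ^ m) = 1 := by
                rw [← mul_pow, mul_inv_cancel₀ hlam0.ne', one_pow]
              calc c * th m * (sig S N : ℝ)
                  = (lam ^ m * (lam⁻¹ ^ m)) * (c * th m * sig S N) := by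
                    rw [this, one_mul]
                _ = _ := by ring
          _ ≤ _ := mul_le_mul_of_nonneg_left h1 (by positivity)
    · left; exact hf0 x h
  · intro n hn x hx
    rw [hf n hn.le x hx]
    simp only [F]
    rw [below_split S hn L hL x]
    push_cast
    rw [← mul_div_assoc, Finset.mul_sum, Finset.mul_sum, Finset.sum_div]
    apply Finset.sum_congr rfl
    intro s _
    by_cases hs : isChild S n s x
    · rw [if_pos hs, if_pos hs, hf (n + 1) (by omega) _ hs.1]
      simp only [F]
      ring
    · rw [if_neg hs, if_neg hs]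
      simp

end H64.Func
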