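import Mathlib

/-!
Word balls and spheres in a group, growth.
-/

set_option autoImplicit false

open Filter
open scoped Topology

namespace H64.Func

variable {G : Type*} [Group G]

/-- The set of products of at most `n` factors from `S ∪ S⁻¹`. -/
def ball (S : Finset G) (n : ℕ) : Set G :=
  {g : G | ∃ l : List G, l.length ≤ n ∧ (∀ x ∈ l, x ∈ S ∨ x⁻¹ ∈ S) ∧ l.prod = g}

theorem ball_mono (S : Finset G) {m n : ℕ} (h : m ≤ n) : ball S m ⊆ ball S n := by
  rintro g ⟨l, hl, h1, h2⟩
  exact ⟨l, hl.trans h, h1, h2⟩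

theorem one_mem_ball (S : Finset G) (n : ℕ) : (1 : G) ∈ ball S n :=
  ⟨[], by simp, by simp, by simp⟩

theorem ball_zero (S : Finset G) : ball S 0 = {1} := by
  ext g
  constructor
  · rintro ⟨l, hl, -, h2⟩
    have : l = [] := List.length_eq_zero_iff.1 (by omega)
    subst this
    simpa using h2.symm
  · rintro rfl
    exact one_mem_ball S 0

theorem mul_mem_ball {S : Finset G} {m n : ℕ} {g h : G} (hg : g ∈ ball S m) (hh : h ∈ ball S n) :
    g * h ∈ ball S (m + n) := by
  obtain ⟨l, hl, h1, rfl⟩ := hg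
  obtain ⟨l', hl', h1', rfl⟩ := hh
  refine ⟨l ++ l', by simp; omega, ?_, by simp⟩
  intro x hx
  rcases List.mem_append.1 hx with h | h
  · exact h1 x h
  · exact h1' x h

theorem letter_mem_ball {S : Finset G} {s : G} (hs : s ∈ S ∨ s⁻¹ ∈ S) : s ∈ ball S 1 :=
  ⟨[s], by simp, by simpa using hs, by simp⟩

theorem inv_mem_ball {S : Finset G} {n : ℕ} {g : G} (hg : g ∈ ball S n) : g⁻¹ ∈ ball S n := by
  obtain ⟨l, hl, h1, rfl⟩ := hg
  refine ⟨(l.map (fun x => x⁻¹)).reverse, by simpa using hl, ?_, ?_⟩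
  · intro x hx
    rw [List.mem_reverse, List.mem_map] at hx
    obtain ⟨y, hy, rfl⟩ := hx
    rw [inv_inv]
    exact (h1 y hy).symm
  · rw [List.prod_inv_reverse]

theorem ball_succ_cases {S : Finset G} {n : ℕ} {x : G} (hx : x ∈ ball S (n + 1)) :
    x ∈ ball S n ∨ ∃ s, (s ∈ S ∨ s⁻¹ ∈ S) ∧ s⁻¹ * x ∈ ball S n := by
  obtain ⟨l, hl, h1, rfl⟩ := hx
  cases l with
  | nil => left; simpa using one_mem_ball S n
  | cons s l =>
    right
    refine ⟨s, h1 s (by simp), l, by simpa using hl, fun x hx => h1 x (by simp [hx]), by simp⟩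

open scoped Classical in
/-- The letters: `S ∪ S⁻¹`. -/
noncomputable def letters (S : Finset G) : Finset G := S ∪ S.image (fun x => x⁻¹)

theorem mem_letters {S : Finset G} {s : G} : s ∈ letters S ↔ (s ∈ S ∨ s⁻¹ ∈ S) := by
  classical
  unfold letters
  rw [Finset.mem_union, Finset.mem_image]
  constructor
  · rintro (h | ⟨x, hx, rfl⟩)
    · exact Or.inl h
    · right; simpa using hx
  · rintro (h | h)
    · exact Or.inl h
    · exact Or.inr ⟨s⁻¹, h, by simp⟩

theorem ball_finite (S : Finset G) (n : ℕ) : (ball S n).Finite := by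
  induction n with
  | zero => rw [ball_zero]; exact Set.finite_singleton 1
  | succ n ih =>
    have h : ball S (n + 1) ⊆ ball S n ∪
        (fun p : G × G => p.1 * p.2) '' ((letters S : Set G) ×ˢ ball S n) := by
      intro x hx
      rcases ball_succ_cases hx with h | ⟨s, hs, h⟩
      · exact Or.inl h
      · right
        exact ⟨(s, s⁻¹ * x), ⟨by simpa using mem_letters.2 hs, h⟩, by simp⟩
    exact (ih.union (((letters S).finite_toSet.prod ih).image _)).subset h

/-- The growth function. -/
noncomputable def gam (S : Finset G) (n : ℕ) : ℕ := (ball S n).ncard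

theorem gam_pos (S : Finset G) (n : ℕ) : 0 < gam S n :=
  (Set.ncard_pos (ball_finite S n)).2 ⟨1, one_mem_ball S n⟩

theorem gam_mono (S : Finset G) {m n : ℕ} (h : m ≤ n) : gam S m ≤ gam S n :=
  Set.ncard_le_ncard (ball_mono S h) (ball_finite S n)

theorem gam_mul_le (S : Finset G) (m n : ℕ) : gam S (m + n) ≤ gam S m * gam S n := by
  have h : ball S (m + n) ⊆ (fun p : G × G => p.1 * p.2) '' (ball S m ×ˢ ball S n) := by
    rintro g ⟨l, hl, h1, rfl⟩
    refine ⟨((l.take m).prod, (l.drop m).prod), ⟨⟨l.take m, by simp, ?_, rfl⟩,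
      ⟨l.drop m, by simp; omega, ?_, rfl⟩⟩, ?_⟩
    · intro x hx
      exact h1 x (List.mem_of_mem_take hx)
    · intro x hx
      exact h1 x (List.mem_of_mem_drop hx)
    · simp only
      rw [← List.prod_append, List.take_append_drop]
  unfold gam
  calc (ball S (m + n)).ncard
      ≤ ((fun p : G × G => p.1 * p.2) '' (ball S m ×ˢ ball S n)).ncard :=
        Set.ncard_le_ncard h (((ball_finite S m).prod (ball_finite S n)).image _)
    _ ≤ (ball S m ×ˢ ball S n).ncard :=
        Set.ncard_image_le ((ball_finite S m).prod (ball_finite S n))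
    _ = _ := Set.ncard_prod

theorem subadd (S : Finset G) : Subadditive (fun n => Real.log (gam S n)) := by
  intro m n
  have h1 : (0 : ℝ) < gam S m := by exact_mod_cast gam_pos S m
  have h2 : (0 : ℝ) < gam S n := by exact_mod_cast gam_pos S n
  rw [← Real.log_mul h1.ne' h2.ne']
  apply Real.log_le_log
  · exact_mod_cast gam_pos S (m + n)
  · exact_mod_cast gam_mul_le S m n

theorem log_gam_nonneg (S : Finset G) (n : ℕ) : 0 ≤ Real.log (gam S n) :=
  Real.log_nonneg (by exact_mod_cast gam_pos S n)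

theorem bdd (S : Finset G) : BddBelow (Set.range fun n : ℕ => Real.log (gam S n) / n) := by
  refine ⟨0, ?_⟩
  rintro _ ⟨n, rfl⟩
  exact div_nonneg (log_gam_nonneg S n) (Nat.cast_nonneg n)

/-- The growth exponent. -/
noncomputable def rate (S : Finset G) : ℝ := (subadd S).lim

theorem tendsto_rate (S : Finset G) :
    Tendsto (fun n : ℕ => Real.log (gam S n) / n) atTop (𝓝 (rate S)) :=
  (subadd S).tendsto_lim (bdd S)

theorem rate_nonneg (S : Finset G) : 0 ≤ rate S :=
  ge_of_tendsto' (tendsto_rate S)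
    (fun n => div_nonneg (log_gam_nonneg S n) (Nat.cast_nonneg n))

theorem exp_rate_le (S : Finset G) (n : ℕ) : Real.exp (rate S * n) ≤ gam S n := by
  have h2 : (0 : ℝ) < gam S n := by exact_mod_cast gam_pos S n
  rw [← Real.le_log_iff_exp_le h2]
  rcases Nat.eq_zero_or_pos n with h | h
  · subst h; simpa using log_gam_nonneg S 0
  · have h3 := (subadd S).lim_le_div (bdd S) (n := n) (by omega)
    have h4 : (0 : ℝ) < n := by exact_mod_cast h
    exact (le_div_iff₀ h4).1 h3

theorem tendsto_root (S : Finset G) :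
    Tendsto (fun n : ℕ => (gam S n : ℝ) ^ (1 / (n : ℝ))) atTop (𝓝 (Real.exp (rate S))) := by
  have h := (Real.continuous_exp.tendsto (rate S)).comp (tendsto_rate S)
  refine h.congr (fun n => ?_)
  have h2 : (0 : ℝ) < gam S n := by exact_mod_cast gam_pos S n
  simp only [Function.comp]
  rw [Real.rpow_def_of_pos h2]
  congr 1
  ring

theorem rate_eq_zero_of_tendsto (S : Finset G)
    (h : Tendsto (fun n : ℕ => (gam S n : ℝ) ^ (1 / (n : ℝ))) atTop (𝓝 1)) : rate S = 0 := by
  have := tendsto_nhds_unique h (tendsto_root S)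
  have h2 := congrArg Real.log this
  rw [Real.log_exp, Real.log_one] at h2
  exact h2.symm

theorem gam_le (S : Finset G) {η : ℝ} (hη : 0 < η) :
    ∃ C : ℝ, 0 < C ∧ ∀ n : ℕ, (gam S n : ℝ) ≤ C * Real.exp ((rate S + η) * n) := by
  have h := (tendsto_rate S).eventually_lt_const (show rate S < rate S + η by linarith)
  obtain ⟨N, hN⟩ := eventually_atTop.1 h
  refine ⟨gam S (N + 1), by exact_mod_cast gam_pos S _, ?_⟩
  intro n
  have hr := rate_nonneg S
  have h1 : (1 : ℝ) ≤ gam S (N + 1) := by exact_mod_cast gam_pos S _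
  rcases le_or_gt n (N + 1) with hn | hn
  · calc (gam S n : ℝ) ≤ gam S (N + 1) * 1 := by
          rw [mul_one]; exact_mod_cast gam_mono S hn
      _ ≤ _ := by
          apply mul_le_mul_of_nonneg_left _ (by positivity)
          rw [← Real.exp_zero]
          apply Real.exp_le_exp.2
          positivity
  · have h2 := hN n (by omega)
    have h3 : (0 : ℝ) < n := by exact_mod_cast (by omega : 0 < n)
    rw [div_lt_iff₀ h3] at h2
    have h4 : (0 : ℝ) < gam S n := by exact_mod_cast gam_pos S n
    have h5 : (gam S n : ℝ) ≤ Real.exp ((rate S + η) * n) := by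
      rw [← Real.log_le_iff_le_exp h4]
      exact h2.le
    calc (gam S n : ℝ) ≤ 1 * Real.exp ((rate S + η) * n) := by rw [one_mul]; exact h5
      _ ≤ _ := mul_le_mul_of_nonneg_right h1 (Real.exp_nonneg _)

/-! ### Spheres -/

/-- The sphere of radius `n`. -/
def sph (S : Finset G) (n : ℕ) : Set G := {x | x ∈ ball S n ∧ ∀ m < n, x ∉ ball S m}

theorem sph_subset_ball (S : Finset G) (n : ℕ) : sph S n ⊆ ball S n := fun _ h => h.1

theorem sph_finite (S : Finset G) (n : ℕ) : (sph S n).Finite :=
  (ball_finite S n).subset (sph_subset_ball S n)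

theorem sph_zero (S : Finset G) : sph S 0 = {1} := by
  ext x
  simp [sph, ball_zero]

theorem exists_sph {S : Finset G} {n : ℕ} {x : G} (hx : x ∈ ball S n) :
    ∃ m ≤ n, x ∈ sph S m := by
  classical
  have h : ∃ m, x ∈ ball S m := ⟨n, hx⟩
  exact ⟨Nat.find h, Nat.find_min' h hx, Nat.find_spec h, fun m hm => Nat.find_min h hm⟩

theorem sph_unique {S : Finset G} {m n : ℕ} {x : G} (hm : x ∈ sph S m) (hn : x ∈ sph S n) :
    m = n := by
  rcases lt_trichotomy m n with h | h | h
  · exact absurd hm.1 (hn.2 m h)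
  · exact h
  · exact absurd hn.1 (hm.2 n h)

theorem mem_ball_iff_of_sph {S : Finset G} {m n : ℕ} {x : G} (hm : x ∈ sph S m) :
    x ∈ ball S n ↔ m ≤ n := by
  constructor
  · intro h
    by_contra hlt
    exact hm.2 n (by omega) h
  · intro h
    exact ball_mono S h hm.1

/-- The size of the sphere. -/
noncomputable def sig (S : Finset G) (n : ℕ) : ℕ := (sph S n).ncard

theorem sig_le_gam (S : Finset G) (n : ℕ) : sig S n ≤ gam S n :=
  Set.ncard_le_ncard (sph_subset_ball S n) (ball_finite S n)

theorem gam_le_sum (S : Finset G) (n : ℕ) : gam S n ≤ ∑ k ∈ Finset.range (n + 1), sig S k := by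
  classical
  have h : ball S n ⊆ ⋃ k ∈ Finset.range (n + 1), sph S k := by
    intro x hx
    obtain ⟨m, hm, h⟩ := exists_sph hx
    simp only [Set.mem_iUnion]
    exact ⟨m, by simpa using (by omega : m < n + 1), h⟩
  calc gam S n ≤ (⋃ k ∈ Finset.range (n + 1), sph S k).ncard :=
        Set.ncard_le_ncard h (Set.Finite.biUnion (Finset.finite_toSet _) (fun k _ => sph_finite S k))
    _ ≤ _ := by
        induction (n + 1) with
        | zero => simp
        | succ k ih =>
          rw [Finset.sum_range_succ, Finset.range_add_one, Finset.set_biUnion_insert]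
          refine (Set.ncard_union_le _ _).trans ?_
          unfold sig at *
          omega

theorem exists_pred {S : Finset G} {n : ℕ} {x : G} (hx : x ∈ sph S (n + 1)) :
    ∃ s ∈ letters S, s⁻¹ * x ∈ sph S n := by
  rcases ball_succ_cases hx.1 with h | ⟨s, hs, h⟩
  · exact absurd h (hx.2 n (by omega))
  · refine ⟨s, mem_letters.2 hs, h, ?_⟩
    intro m hm hmem
    have := mul_mem_ball (letter_mem_ball hs) hmem
    rw [mul_inv_cancel_left] at this
    exact hx.2 (1 + m) (by omega) this

open scoped Classical in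
/-- The chosen first letter. -/
noncomputable def fst (S : Finset G) (x : G) : G :=
  if h : ∃ s ∈ letters S, ∃ n, x ∈ sph S (n + 1) ∧ s⁻¹ * x ∈ sph S n then h.choose else 1

/-- The parent in the geodesic tree. -/
noncomputable def par (S : Finset G) (x : G) : G := (fst S x)⁻¹ * x

theorem fst_spec {S : Finset G} {n : ℕ} {x : G} (hx : x ∈ sph S (n + 1)) :
    fst S x ∈ letters S ∧ par S x ∈ sph S n := by
  have h : ∃ s ∈ letters S, ∃ n, x ∈ sph S (n + 1) ∧ s⁻¹ * x ∈ sph S n := by
    obtain ⟨s, hs, h⟩ := exists_pred hx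
    exact ⟨s, hs, n, hx, h⟩
  have e : fst S x = h.choose := by unfold fst; rw [dif_pos h]
  obtain ⟨h1, m, h2, h3⟩ := h.choose_spec
  have hm : m = n := by have := sph_unique h2 hx; omega
  subst hm
  unfold par
  rw [e]
  exact ⟨h1, h3⟩

theorem par_iter {S : Finset G} (k : ℕ) : ∀ {m : ℕ} {y : G}, y ∈ sph S (m + k) →
    (par S)^[k] y ∈ sph S m ∧ y * ((par S)^[k] y)⁻¹ ∈ ball S k := by
  induction k with
  | zero => intro m y hy; simpa using ⟨hy, one_mem_ball S 0⟩
  | succ k ih =>
    intro m y hy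
    have h1 := fst_spec (n := m + k) hy
    have h2 := ih h1.2
    rw [Function.iterate_succ, Function.comp]
    refine ⟨h2.1, ?_⟩
    have h3 := mul_mem_ball (letter_mem_ball (mem_letters.1 h1.1)) h2.2
    rw [Nat.add_comm 1 k] at h3
    have e : y * ((par S)^[k] (par S y))⁻¹ = fst S y * (par S y * ((par S)^[k] (par S y))⁻¹) := by
      rw [← mul_assoc]
      congr 1
      unfold par
      rw [mul_inv_cancel_left]
    rw [e]
    exact h3

theorem desc_card_le {S : Finset G} {m k : ℕ} {x : G} (L : Finset G)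
    (hL : ∀ y ∈ L, y ∈ sph S (m + k)) (hx : x ∈ sph S m)
    (hpar : ∀ y ∈ L, (par S)^[k] y = x) : L.card ≤ sig S k := by
  classical
  have hinj : Set.InjOn (fun y => y * x⁻¹) (L : Set G) := by
    intro a _ b _ hab
    exact mul_right_cancel hab
  rw [← Set.ncard_coe_finset, ← Set.InjOn.ncard_image hinj]
  apply Set.ncard_le_ncard _ (sph_finite S k)
  rintro _ ⟨y, hy, rfl⟩
  have h1 := (par_iter k (hL y hy)).2
  rw [hpar y hy] at h1
  refine ⟨h1, ?_⟩
  intro j hj hmem
  have h2 := mul_mem_ball hmem hx.1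
  simp only [inv_mul_cancel_right] at h2
  exact (hL y hy).2 (j + m) (by omega) h2

end H64.Func
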